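import Pool.Agent.P.MP_2d26dd_al.M8
import Pool.Agent.P.MP_2d26dd_al.RDefs

namespace Pool.Agent.Results.MP_2d26dd_al.Genus

open Pool.Agent.P.MP_2d26dd_al

theorem result (g : ℕ) : ∃ n₀ : ℕ, ∀ n ≥ n₀, ∀ (p : ℕ)
    (Γ : Subgroup (Out (FreeGroup (Fin n)))), Γ.FiniteIndex →
    FinImage Γ (Out (SurfGroup g p)) Periph :=
  genus_main g

end Pool.Agent.Results.MP_2d26dd_al.Genus
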