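import Pool.Agent.P.MP_2d26dd_al.Z2
import Pool.Agent.P.MP_2d26dd_al.RDefs

namespace Pool.Agent.Results.MP_2d26dd_al.Rank

open Pool.Agent.P.MP_2d26dd_al

theorem result (k : ℕ) : ∃ n₀ : ℕ, ∀ n ≥ n₀, ∀ (g p : ℕ)
    (Γ : Subgroup (Out (FreeGroup (Fin n)))), Γ.FiniteIndex →
    RankImage k Γ (Out (SurfGroup g p)) Periph := by
  obtain ⟨n₀, h⟩ := rank_genus_main k
  exact ⟨n₀, fun n hn g p Γ hΓ φ hφ hinf => (h n hn g p Γ hΓ φ hφ hinf).2⟩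

end Pool.Agent.Results.MP_2d26dd_al.Rank
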